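import Mathlib

/-!
Pair correlation of `α n²`: the divisor bound and the variance estimate.
-/

namespace Pool.Agent.Lib.MP_30b5ba_nt

open Finset MeasureTheory

theorem card_divisors_pow_le (k : ℕ) : ∃ C : ℕ, ∀ n : ℕ, n ≠ 0 → #n.divisors ^ k ≤ C * n := by
  set C0 := k.factorial * 2 ^ k with hC0
  have hC : 1 ≤ C0 := Nat.one_le_iff_ne_zero.2 (by positivity)
  refine ⟨C0 ^ 2 ^ k, fun n hn => ?_⟩
  rw [Nat.card_divisors hn, ← prod_pow]
  calc ∏ p ∈ n.primeFactors, (n.factorization p + 1) ^ k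
      ≤ ∏ p ∈ n.primeFactors, (if p < 2 ^ k then C0 else 1) * p ^ n.factorization p := by
        refine prod_le_prod' fun p hp => ?_
        have h2 := (Nat.prime_of_mem_primeFactors hp).two_le
        generalize n.factorization p = a
        split_ifs with h
        · calc (a + 1) ^ k ≤ (a + 1).ascFactorial k := Nat.pow_succ_le_ascFactorial _ _
            _ = k.factorial * (a + k).choose k := Nat.ascFactorial_eq_factorial_mul_choose _ _
            _ ≤ k.factorial * 2 ^ (a + k) := by gcongr; exact Nat.choose_le_two_pow _ _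
            _ = C0 * 2 ^ a := by rw [hC0]; ring
            _ ≤ C0 * p ^ a := by gcongr
        · calc (a + 1) ^ k ≤ (2 ^ a) ^ k := by gcongr; exact Nat.lt_two_pow_self
            _ = (2 ^ k) ^ a := by rw [← pow_mul, ← pow_mul, mul_comm]
            _ ≤ 1 * p ^ a := by rw [one_mul]; gcongr; omega
    _ ≤ C0 ^ 2 ^ k * n := by
        rw [prod_mul_distrib]
        gcongr
        · rw [prod_ite, prod_const_one, mul_one, prod_const]
          refine Nat.pow_le_pow_right hC ?_
          calc _ ≤ #(range (2 ^ k)) := card_le_card fun p hp => mem_range.2 (mem_filter.1 hp).2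
            _ = _ := card_range _
        · exact (Nat.prod_factorization_pow_eq_self hn).le

/-- The number of integers `k` with `x ≤ z - k < y`. -/
noncomputable def chi (x y z : ℝ) : ℝ := (⌊z - x⌋ : ℝ) - ⌊z - y⌋

theorem chi_mono {x y z x' y' z' : ℝ} (h1 : z - x ≤ z' - x') (h2 : z' - y' ≤ z - y) :
    chi x y z ≤ chi x' y' z' := by
  have := (Int.cast_le (R := ℝ)).2 (Int.floor_le_floor h1)
  have := (Int.cast_le (R := ℝ)).2 (Int.floor_le_floor h2)
  simp only [chi]
  linarith

theorem chi_nonneg {x y : ℝ} (h : x ≤ y) (z : ℝ) : 0 ≤ chi x y z := by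
  have := (Int.cast_le (R := ℝ)).2 (Int.floor_le_floor (by linarith : z - y ≤ z - x))
  simp only [chi]
  linarith

theorem chi_add_int (x y z : ℝ) (k : ℤ) : chi x y (z + k) = chi x y z := by
  simp only [chi, add_sub_right_comm, Int.floor_add_intCast]
  push_cast
  ring

theorem chi_eq (x y z : ℝ) : chi x y z = y - x + (Int.fract (z - y) - Int.fract (z - x)) := by
  simp only [chi, Int.fract]
  ring

theorem abs_chi_le (x y z : ℝ) : |chi x y z| ≤ |y - x| + 1 := by
  rw [chi_eq]
  refine (abs_add_le _ _).trans (add_le_add le_rfl ?_)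
  have := Int.fract_nonneg (z - y)
  have := Int.fract_lt_one (z - y)
  have := Int.fract_nonneg (z - x)
  have := Int.fract_lt_one (z - x)
  rw [abs_le]; constructor <;> linarith

@[fun_prop]
theorem measurable_chi (x y : ℝ) : Measurable (chi x y) := by
  unfold chi
  exact ((measurable_of_countable (fun k : ℤ => (k : ℝ))).comp (Measurable.floor (by fun_prop))).sub
    ((measurable_of_countable (fun k : ℤ => (k : ℝ))).comp (Measurable.floor (by fun_prop)))

theorem ii_of_bdd {f : ℝ → ℝ} (hf : Measurable f) {C : ℝ} (h : ∀ z, |f z| ≤ C) (a b : ℝ) :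
    IntervalIntegrable f volume a b :=
  (intervalIntegrable_const (c := C)).mono_fun' hf.aestronglyMeasurable
    (Filter.Eventually.of_forall h)

theorem ii_chi (x y m c a b : ℝ) :
    IntervalIntegrable (fun α => chi x y (m * α + c)) volume a b :=
  ii_of_bdd (by fun_prop) (fun _ => abs_chi_le _ _ _) a b

theorem ii_chi2 (x y m m' c a b : ℝ) :
    IntervalIntegrable (fun α => chi x y (m * α) * chi x y (m' * α + c)) volume a b :=
  ii_of_bdd (C := (|y - x| + 1) * (|y - x| + 1)) (by fun_prop) (fun _ => by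
    rw [abs_mul]
    exact mul_le_mul (abs_chi_le _ _ _) (abs_chi_le _ _ _) (abs_nonneg _) (by positivity)) a b

theorem ii_sum {ι : Type*} {s : Finset ι} {f : ι → ℝ → ℝ} {a b : ℝ}
    (h : ∀ i ∈ s, IntervalIntegrable (f i) volume a b) :
    IntervalIntegrable (fun α => ∑ i ∈ s, f i α) volume a b := by
  have := IntervalIntegrable.sum s h
  rwa [show ∑ i ∈ s, f i = fun α => ∑ i ∈ s, f i α from funext fun α => by simp] at this

theorem integral_shift {f : ℝ → ℝ} (hf : Function.Periodic f 1) (t c : ℝ) :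
    ∫ α in t..t + 1, f (α + c) = ∫ α in t..t + 1, f α := by
  rw [intervalIntegral.integral_comp_add_right, add_right_comm, hf.intervalIntegral_add_eq]

theorem integral_chi (x y t : ℝ) {m : ℤ} (hm : m ≠ 0) :
    ∫ α in t..t + 1, chi x y (m * α) = y - x := by
  have hm' : (m : ℝ) ≠ 0 := by exact_mod_cast hm
  have hi : ∀ c : ℝ, IntervalIntegrable (fun α => Int.fract (m * α - c)) volume t (t + 1) :=
    fun c => ii_of_bdd (C := 1) (Measurable.fract (by fun_prop)) (fun z => by
      rw [abs_of_nonneg (Int.fract_nonneg _)]; exact (Int.fract_lt_one _).le) _ _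
  have he : ∀ c : ℝ, ∫ α in t..t + 1, Int.fract (m * α - c) =
      ∫ α in t..t + 1, Int.fract (m * α) := by
    intro c
    rw [← integral_shift (f := fun α => Int.fract (m * α))
      (fun α => by simp [mul_add]) t (-c / m)]
    congr 1
    funext α
    congr 1
    field_simp
    ring
  simp only [chi_eq]
  rw [intervalIntegral.integral_add intervalIntegrable_const ((hi y).sub (hi x)),
    intervalIntegral.integral_sub (hi y) (hi x), he, he]
  simp

theorem sum_chi_le {x y : ℝ} (h : x ≤ y) (z : ℝ) {u : ℕ} (hu : 0 < u) {v : ℤ}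
    (huv : IsCoprime (u : ℤ) v) :
    ∑ i ∈ range u, chi x y (z + v * i / u) ≤ u * (y - x) + 1 := by
  have hu' : (0 : ℝ) < u := by exact_mod_cast hu
  have h1 : ∀ w, chi x y w = #(Ioc ⌊w - y⌋ ⌊w - x⌋) := by
    intro w
    have := Int.floor_le_floor (by linarith : w - y ≤ w - x)
    rw [chi, ← Int.cast_natCast, Int.card_Ioc_of_le _ _ this]
    push_cast
    ring
  have h2 : #((range u).sigma fun i => Ioc ⌊z + v * i / u - y⌋ ⌊z + v * i / u - x⌋) ≤
      #(Ioc ⌊u * (z - y)⌋ ⌊u * (z - x)⌋) := by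
    refine card_le_card_of_injOn (fun p => u * p.2 - v * p.1) ?_ ?_
    · rintro ⟨i, k⟩ hp
      simp only [coe_sigma, Set.mem_sigma_iff, mem_coe, mem_Ioc, Int.floor_lt, Int.le_floor]
        at hp ⊢
      obtain ⟨-, h3, h4⟩ := hp
      have e : ∀ w : ℝ, u * (z + v * i / u - w) = u * (z - w) + v * i := fun w => by
        field_simp; ring
      have h5 := mul_lt_mul_of_pos_left h3 hu'
      have h6 := mul_le_mul_of_nonneg_left h4 hu'.le
      rw [e] at h5 h6
      push_cast
      constructor <;> linarith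
    · rintro ⟨i, k⟩ hp ⟨j, l⟩ hq he
      simp only [coe_sigma, Set.mem_sigma_iff, mem_coe, mem_range] at hp hq he
      have h3 : (u : ℤ) ∣ (i : ℤ) - j :=
        huv.dvd_of_dvd_mul_left ⟨k - l, by linear_combination -he⟩
      have h4 : i = j := by
        have := Int.eq_zero_of_abs_lt_dvd h3 (by rw [abs_lt]; constructor <;> omega)
        omega
      subst h4
      have h5 : k = l := mul_left_cancel₀ (a := (u : ℤ)) (by omega) (by linarith)
      rw [h5]
  rw [card_sigma] at h2
  have h3 := (Nat.cast_le (α := ℝ)).2 h2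
  have h4 := Int.floor_le_floor (mul_le_mul_of_nonneg_left (by linarith : z - y ≤ z - x) hu'.le)
  rw [← Int.cast_natCast (#(Ioc _ _)), Int.card_Ioc_of_le _ _ h4] at h3
  push_cast at h3
  simp only [h1]
  have := Int.floor_le (u * (z - x))
  have := Int.lt_floor_add_one (u * (z - y))
  linarith

theorem integral_chi2 {x y : ℝ} (h : x ≤ y) (t : ℝ) {m : ℤ} (hm : m ≠ 0) (m' : ℤ) :
    ∫ α in t..t + 1, chi x y (m * α) * chi x y (m' * α) ≤
      (y - x) * (y - x + Int.gcd m m' / |(m : ℝ)|) := by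
  obtain ⟨g, u, v, hg, huv, rfl, rfl⟩ := Int.exists_gcd_one' (Int.gcd_pos_of_ne_zero_left m' hm)
  have hu : u ≠ 0 := left_ne_zero_of_mul hm
  have hg' : (0 : ℝ) < g := by exact_mod_cast hg
  have hu' : (u : ℝ) ≠ 0 := by exact_mod_cast hu
  have hU : 0 < u.natAbs := Int.natAbs_pos.2 hu
  have hU' : (0 : ℝ) < u.natAbs := by exact_mod_cast hU
  have hUa : ((u.natAbs : ℕ) : ℝ) = |(u : ℝ)| := by rw [Nat.cast_natAbs, Int.cast_abs]
  have hcop : IsCoprime (u.natAbs : ℤ) v := by
    rw [Int.natCast_natAbs, IsCoprime.abs_left_iff]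
    exact Int.isCoprime_iff_gcd_eq_one.2 huv
  set I := ∫ α in t..t + 1, chi x y ((u * g : ℤ) * α) * chi x y ((v * g : ℤ) * α) with hI
  have h1 : ∀ i : ℕ, I = ∫ α in t..t + 1,
      chi x y ((u * g : ℤ) * α) * chi x y ((v * g : ℤ) * α + v * i / u.natAbs) := by
    intro i
    rw [hI, ← integral_shift (f := fun α => chi x y ((u * g : ℤ) * α) * chi x y ((v * g : ℤ) * α))
      (fun α => by simp only [mul_add, mul_one, chi_add_int]) t (i / (u.natAbs * g))]
    congr 1
    funext α
    rw [← chi_add_int x y ((u * g : ℤ) * α) (u.sign * i)]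
    congr 2
    · have : (u : ℝ) = u.sign * u.natAbs := by
        rw [← Int.cast_natCast, ← Int.cast_mul, Int.sign_mul_natAbs]
      push_cast
      field_simp
      linear_combination (i : ℝ) * this
    · push_cast
      field_simp
  have h2 : u.natAbs * I ≤ (y - x) * (u.natAbs * (y - x) + 1) := by
    rw [← nsmul_eq_mul, ← card_range u.natAbs, ← sum_const, card_range,
      sum_congr rfl fun i _ => h1 i,
      ← intervalIntegral.integral_finsetSum fun i _ => ii_chi2 _ _ _ _ _ _ _,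
      ← integral_chi x y t hm, ← intervalIntegral.integral_mul_const, integral_chi x y t hm]
    refine intervalIntegral.integral_mono_on (by linarith) ?_ ?_ fun α _ => ?_
    · exact ii_sum fun i _ => ii_chi2 _ _ _ _ _ _ _
    · simpa using (ii_chi x y (u * g : ℤ) 0 t (t + 1)).mul_const _
    · rw [← mul_sum]
      exact mul_le_mul_of_nonneg_left (sum_chi_le h _ hU hcop) (chi_nonneg h _)
  have h3 : ((Int.gcd (u * g) (v * g) : ℕ) : ℝ) / |((u * g : ℤ) : ℝ)| = 1 / u.natAbs := by
    rw [Int.gcd_mul_right, huv, hUa]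
    push_cast
    rw [abs_mul, abs_of_pos hg', Int.natAbs_natCast]
    field_simp
  rw [h3, ← mul_le_mul_iff_right₀ hU']
  refine h2.trans_eq ?_
  field_simp

/-- Ordered pairs of distinct indices. -/
def prs (N : ℕ) : Finset (ℕ × ℕ) := {p ∈ Icc 1 N ×ˢ Icc 1 N | p.1 ≠ p.2}

/-- Difference of squares. -/
def dsq (p : ℕ × ℕ) : ℤ := (p.1 : ℤ) ^ 2 - (p.2 : ℤ) ^ 2

theorem dsq_ne {N : ℕ} {p : ℕ × ℕ} (hp : p ∈ prs N) : dsq p ≠ 0 := by
  have := (mem_filter.1 hp).2
  intro h
  have h1 := (pow_left_inj₀ (by positivity) (by positivity) two_ne_zero).1 (sub_eq_zero.1 h)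
  exact this (by exact_mod_cast h1)

theorem natAbs_dsq_le {N : ℕ} {p : ℕ × ℕ} (hp : p ∈ prs N) : (dsq p).natAbs ≤ N ^ 2 := by
  simp only [prs, mem_filter, mem_product, mem_Icc] at hp
  obtain ⟨⟨⟨-, h1⟩, -, h2⟩, -⟩ := hp
  have h3 : (p.1 : ℤ) ^ 2 ≤ (N : ℤ) ^ 2 := by gcongr
  have h4 : (p.2 : ℤ) ^ 2 ≤ (N : ℤ) ^ 2 := by gcongr
  have h5 : (0 : ℤ) ≤ (p.1 : ℤ) ^ 2 := by positivity
  have h6 : (0 : ℤ) ≤ (p.2 : ℤ) ^ 2 := by positivity
  zify
  rw [dsq, abs_le]
  constructor <;> linarith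

theorem card_prs (N : ℕ) : (#(prs N) : ℝ) = N * (N - 1) := by
  have : prs N = (Icc 1 N).offDiag := by
    ext p; simp [prs, mem_offDiag, and_assoc]
  rw [this, offDiag_card, Nat.cast_sub (Nat.le_mul_self _)]
  simp
  ring

theorem card_fiber_le (N k : ℕ) (hk : k ≠ 0) :
    #{p ∈ prs N | (dsq p).natAbs = k} ≤ 2 * #k.divisors := by
  rw [mul_comm, ← Fintype.card_bool, ← card_univ, ← card_product]
  refine card_le_card_of_injOn (fun p => (p.1 + p.2, decide (p.1 < p.2))) ?_ ?_
  · intro p hp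
    simp only [coe_filter, Set.mem_ofPred_eq] at hp
    simp only [coe_product, Set.mem_prod, mem_coe, Nat.mem_divisors, mem_univ, and_true]
    refine ⟨?_, hk⟩
    rw [← hp.2, ← Int.natCast_dvd]
    exact ⟨p.1 - p.2, by rw [dsq]; push_cast; ring⟩
  · rintro ⟨i, j⟩ hp ⟨i', j'⟩ hq he
    simp only [coe_filter, Set.mem_ofPred_eq, prs, mem_filter, mem_product, mem_Icc, dsq,
      Prod.mk.injEq, decide_eq_decide] at hp hq he ⊢
    have h1 : |((i : ℤ) + j) * (i - j)| = |((i : ℤ) + j) * (i' - j')| := by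
      have e1 : ((i : ℤ) + j) * (i - j) = i ^ 2 - j ^ 2 := by ring
      have e2 : ((i : ℤ) + j) * (i' - j') = i' ^ 2 - j' ^ 2 := by
        rw [show (i : ℤ) + j = i' + j' by exact_mod_cast he.1]; ring
      rw [e1, e2, ← Int.natCast_natAbs, ← Int.natCast_natAbs, hp.2, hq.2]
    rw [abs_mul, abs_mul] at h1
    have h2 := mul_left_cancel₀ (abs_ne_zero.2 (by omega)) h1
    rcases abs_eq_abs.1 h2 with h | h <;> omega

theorem sum_gcd_le (M : ℕ) (hM : M ≠ 0) : ∑ k ∈ Icc 1 M, Nat.gcd M k ≤ M * #M.divisors := by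
  calc ∑ k ∈ Icc 1 M, Nat.gcd M k ≤ ∑ k ∈ Icc 1 M, ∑ d ∈ M.divisors, if d ∣ k then d else 0 := by
        refine sum_le_sum fun k _ => ?_
        refine le_trans (le_of_eq ?_) (single_le_sum (f := fun d => if d ∣ k then d else 0)
          (fun _ _ => Nat.zero_le _) (Nat.mem_divisors.2 ⟨Nat.gcd_dvd_left M k, hM⟩))
        rw [if_pos (Nat.gcd_dvd_right M k)]
    _ ≤ ∑ _d ∈ M.divisors, M := by
        rw [sum_comm]
        refine sum_le_sum fun d _ => ?_
        rw [← sum_filter, sum_const, smul_eq_mul, show Icc 1 M = Ioc 0 M from rfl,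
          Nat.Ioc_filter_dvd_card_eq_div]
        exact Nat.div_mul_le_self M d
    _ = _ := by rw [sum_const, smul_eq_mul, mul_comm]

theorem sum_prs_gcd_le {N T : ℕ} (hT : ∀ k ≤ N ^ 2, #k.divisors ≤ T) {p : ℕ × ℕ}
    (hp : p ∈ prs N) : ∑ q ∈ prs N with (dsq q).natAbs ≤ (dsq p).natAbs,
      Int.gcd (dsq p) (dsq q) ≤ 2 * T ^ 2 * (dsq p).natAbs := by
  set M := (dsq p).natAbs with hM
  have hM0 : M ≠ 0 := Int.natAbs_ne_zero.2 (dsq_ne hp)
  have hMN := natAbs_dsq_le hp
  rw [← sum_fiberwise_of_maps_to (g := fun q => (dsq q).natAbs) (t := Icc 1 M) fun q hq =>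
    mem_Icc.2 ⟨Int.natAbs_pos.2 (dsq_ne (mem_filter.1 hq).1), (mem_filter.1 hq).2⟩]
  calc _ ≤ ∑ k ∈ Icc 1 M, 2 * T * Nat.gcd M k := by
        refine sum_le_sum fun k hk => ?_
        rw [sum_congr rfl (g := fun _ => Nat.gcd M k) fun q hq => by
          rw [← (mem_filter.1 hq).2]; rfl, sum_const, smul_eq_mul]
        have hk := mem_Icc.1 hk
        gcongr
        calc _ ≤ #{q ∈ prs N | (dsq q).natAbs = k} := card_le_card fun q hq =>
              mem_filter.2 ⟨(mem_filter.1 (mem_filter.1 hq).1).1, (mem_filter.1 hq).2⟩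
          _ ≤ 2 * #k.divisors := card_fiber_le N k (by omega)
          _ ≤ 2 * T := by gcongr; exact hT k (by omega)
    _ ≤ 2 * T * (M * T) := by
        rw [← mul_sum]
        gcongr
        exact (sum_gcd_le M hM0).trans (by gcongr; exact hT M hMN)
    _ = _ := by ring

/-- The pair count with a half-open window. -/
noncomputable def cnt (N : ℕ) (x y α : ℝ) : ℝ := ∑ p ∈ prs N, chi x y (dsq p * α)

theorem ii_sq (N : ℕ) (x y c a b : ℝ) :
    IntervalIntegrable (fun α => (cnt N x y α - c) ^ 2) volume a b := by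
  refine ii_of_bdd (C := (#(prs N) * (|y - x| + 1) + |c|) ^ 2) (by unfold cnt; fun_prop)
    (fun α => ?_) a b
  rw [abs_pow]
  gcongr
  refine (abs_sub _ _).trans (add_le_add ((abs_sum_le_sum_abs _ _).trans ?_) le_rfl)
  rw [← nsmul_eq_mul]
  exact sum_le_card_nsmul _ _ _ fun p _ => abs_chi_le _ _ _

theorem variance {N T : ℕ} (hT : ∀ k ≤ N ^ 2, #k.divisors ≤ T) {x y : ℝ} (h : x ≤ y) (t : ℝ) :
    ∫ α in t..t + 1, (cnt N x y α - (y - x) * #(prs N)) ^ 2 ≤ (y - x) * (4 * T ^ 2 * N ^ 2) := by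
  have i1 : ∀ p, IntervalIntegrable (fun α => chi x y (dsq p * α)) volume t (t + 1) := fun p => by
    simpa using ii_chi x y (dsq p) 0 t (t + 1)
  have i2 : ∀ p q, IntervalIntegrable (fun α => chi x y (dsq p * α) * chi x y (dsq q * α))
      volume t (t + 1) := fun p q => by simpa using ii_chi2 x y (dsq p) (dsq q) 0 t (t + 1)
  have e : ∀ α, (cnt N x y α - (y - x) * #(prs N)) ^ 2 =
      ∑ p ∈ prs N, ∑ q ∈ prs N, chi x y (dsq p * α) * chi x y (dsq q * α) -
      2 * ((y - x) * #(prs N)) * ∑ p ∈ prs N, chi x y (dsq p * α) +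
      ((y - x) * #(prs N)) ^ 2 := fun α => by
    rw [← sum_mul_sum, cnt]; ring
  simp only [e]
  rw [intervalIntegral.integral_add ((ii_sum fun p _ => ii_sum fun q _ => i2 p q).sub
      ((ii_sum fun p _ => i1 p).const_mul _)) intervalIntegrable_const,
    intervalIntegral.integral_sub (ii_sum fun p _ => ii_sum fun q _ => i2 p q)
      ((ii_sum fun p _ => i1 p).const_mul _), intervalIntegral.integral_const_mul,
    intervalIntegral.integral_finsetSum fun p _ => i1 p,
    intervalIntegral.integral_finsetSum fun p _ => ii_sum fun q _ => i2 p q,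
    sum_congr rfl fun p hp => integral_chi x y t (dsq_ne hp),
    sum_congr rfl fun p _ => intervalIntegral.integral_finsetSum fun q _ => i2 p q]
  let F : ℕ × ℕ → ℕ × ℕ → ℝ := fun p q =>
    if (dsq q).natAbs ≤ (dsq p).natAbs then Int.gcd (dsq p) (dsq q) / |(dsq p : ℝ)| else 0
  have hF : ∀ p q, 0 ≤ F p q := fun p q => by simp only [F]; split_ifs <;> positivity
  have hl : 0 ≤ y - x := by linarith
  have h1 : ∀ p ∈ prs N, ∀ q ∈ prs N,
      ∫ α in t..t + 1, chi x y (dsq p * α) * chi x y (dsq q * α) ≤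
        (y - x) * (y - x + (F p q + F q p)) := by
    intro p hp q hq
    rcases le_total (dsq q).natAbs (dsq p).natAbs with h' | h'
    · refine (integral_chi2 h t (dsq_ne hp) _).trans ?_
      gcongr
      exact le_add_of_le_of_nonneg (if_pos h').ge (hF _ _)
    · simp only [mul_comm (chi x y (dsq p * _))]
      refine (integral_chi2 h t (dsq_ne hq) _).trans ?_
      gcongr
      exact le_add_of_nonneg_of_le (hF _ _) (if_pos h').ge
  have h2 : ∀ p ∈ prs N, ∑ q ∈ prs N, F p q ≤ 2 * T ^ 2 := by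
    intro p hp
    have h3 := (Nat.cast_le (α := ℝ)).2 (sum_prs_gcd_le hT hp)
    have h4 : (0 : ℝ) < |(dsq p : ℝ)| := abs_pos.2 (by exact_mod_cast dsq_ne hp)
    simp only [F]
    rw [← sum_filter, ← sum_div, div_le_iff₀ h4]
    push_cast at h3
    rwa [Nat.cast_natAbs, Int.cast_abs] at h3
  have h3 := sum_le_card_nsmul _ _ _ h2
  have h4 := sum_le_sum fun p hp => sum_le_sum fun q hq => h1 p hp q hq
  simp only [← mul_sum, sum_add_distrib, sum_const, nsmul_eq_mul] at h4 h3
  rw [sum_comm (f := fun p q => F q p)] at h4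
  have h5 : (#(prs N) : ℝ) ≤ N ^ 2 := by
    rw [card_prs]; have : (0 : ℝ) ≤ N := by positivity
    nlinarith
  have h6 : ∑ p ∈ prs N, ∑ q ∈ prs N, F p q ≤ N ^ 2 * (2 * T ^ 2) :=
    h3.trans (by gcongr)
  have h7 := mul_le_mul_of_nonneg_left h6 hl
  simp only [sum_const, nsmul_eq_mul, intervalIntegral.integral_const, smul_eq_mul]
  nlinarith

end Pool.Agent.Lib.MP_30b5ba_nt
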