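import Pool.Agent.Lib.MP_30b5ba_nt.Defs
import Pool.Agent.Lib.MP_30b5ba_nt.Variance

/-!
Pair correlation of `α n²`: the exceptional set has dimension at most `2/3`.
-/

namespace Pool.Agent.Lib.MP_30b5ba_nt

open Finset MeasureTheory Filter Topology

open Classical in
theorem cover_count {f : ℝ → ℝ} (hf : ∀ a b, IntervalIntegrable f volume a b) (h0 : ∀ α, 0 ≤ f α)
    (t lam : ℝ) {L : ℕ} (hL : 0 < L) :
    #((range L).filter fun k : ℕ => ∀ α ∈ Set.Icc (t + k / L) (t + (k + 1 : ℕ) / L), lam ≤ f α) *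
      (lam / L) ≤ ∫ α in t..t + 1, f α := by
  have hL' : (0 : ℝ) < L := by exact_mod_cast hL
  have h1 := intervalIntegral.sum_integral_adjacent_intervals (f := f) (μ := volume)
    (a := fun k : ℕ => t + k / L) (n := L) fun k _ => hf _ _
  have hle : ∀ k : ℕ, t + k / L ≤ t + (k + 1 : ℕ) / L := fun k => by gcongr; omega
  simp only [Nat.cast_zero, zero_div, add_zero, div_self hL'.ne'] at h1
  rw [← h1, ← nsmul_eq_mul]
  refine le_trans (card_nsmul_le_sum _ _ _ fun k hk => ?_)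
    (sum_le_sum_of_subset_of_nonneg (filter_subset _ _) fun k _ _ =>
      intervalIntegral.integral_nonneg (hle k) fun α _ => h0 α)
  refine le_trans (le_of_eq ?_) (intervalIntegral.integral_mono_on (hle k)
    (intervalIntegrable_const (c := lam)) (hf _ _) (mem_filter.1 hk).2)
  simp
  field_simp
  ring

theorem hausdorff_cantelli {s : ℝ} (hs : 0 < s) (J : ℕ → ℕ → Set ℝ) (S : ℕ → Finset ℕ)
    (r : ℕ → ℝ) (hr0 : ∀ j, 0 ≤ r j) (hr : Tendsto r atTop (𝓝 0))
    (hJ : ∀ j k, Metric.ediam (J j k) ≤ ENNReal.ofReal (r j))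
    (hsum : Summable fun j => #(S j) * r j ^ s) :
    μH[s] {α | ∃ᶠ j in atTop, ∃ k ∈ S j, α ∈ J j k} = 0 := by
  have hr' : Tendsto (fun j => ENNReal.ofReal (r j)) atTop (𝓝 0) := by
    simpa using ENNReal.tendsto_ofReal hr
  have h1 := Measure.hausdorffMeasure_le_liminf_tsum (ι := fun _ : ℕ => ℕ × ℕ) s
    {α | ∃ᶠ j in atTop, ∃ k ∈ S j, α ∈ J j k} (l := atTop)
    (fun n => ⨆ j, ENNReal.ofReal (r (j + n))) ?_
    (fun n p => if p.2 ∈ S (p.1 + n) then J (p.1 + n) p.2 else ∅)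
    (Eventually.of_forall fun n p => ?_) (Eventually.of_forall fun n α hα => ?_)
  · refine le_antisymm (h1.trans ?_) zero_le
    have h2 : ∑' j, ENNReal.ofReal (#(S j) * r j ^ s) ≠ ⊤ := by
      rw [← ENNReal.ofReal_tsum_of_nonneg (fun j => by have := hr0 j; positivity) hsum]
      exact ENNReal.ofReal_ne_top
    rw [← (ENNReal.tendsto_sum_nat_add _ h2).liminf_eq]
    refine liminf_le_liminf (Eventually.of_forall fun n => ?_)
    rw [ENNReal.tsum_prod']
    refine ENNReal.tsum_le_tsum fun j => ?_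
    rw [tsum_eq_sum (s := S (j + n)) fun k hk => by simp [hk, hs],
      ENNReal.ofReal_mul (by positivity), ← ENNReal.ofReal_rpow_of_nonneg (hr0 _) hs.le,
      ENNReal.ofReal_natCast, ← nsmul_eq_mul]
    refine sum_le_card_nsmul _ _ _ fun k hk => ?_
    simp only [hk, if_true]
    exact ENNReal.rpow_le_rpow (hJ _ _) hs.le
  · rw [ENNReal.tendsto_atTop_zero] at hr' ⊢
    intro ε hε
    obtain ⟨M, hM⟩ := hr' ε hε
    exact ⟨M, fun n hn => iSup_le fun j => hM _ (by omega)⟩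
  · split_ifs
    · exact (hJ _ _).trans (le_iSup (fun j => ENNReal.ofReal (r (j + n))) p.1)
    · simp
  · obtain ⟨j, hj, k, hk, h⟩ := frequently_atTop.1 hα n
    refine Set.mem_iUnion.2 ⟨(j - n, k), ?_⟩
    simp only [Nat.sub_add_cancel hj, hk, if_true, h]

theorem exists_divisor_bound {δ : ℝ} (hδ : 0 < δ) : ∃ C : ℝ, 0 < C ∧ ∀ N : ℕ, 1 ≤ N → ∃ T : ℕ,
    (∀ k ≤ N ^ 2, #k.divisors ≤ T) ∧ (T : ℝ) ≤ C * (N : ℝ) ^ δ := by
  obtain ⟨k, hk⟩ := exists_nat_gt (2 / δ)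
  have hk0 : (0 : ℝ) < k := lt_trans (by positivity) hk
  obtain ⟨C, hC⟩ := card_divisors_pow_le k
  refine ⟨((C : ℝ) + 1) ^ (k : ℝ)⁻¹, by positivity, fun N hN => ⟨_, fun n hn => Nat.le_floor ?_,
    Nat.floor_le (by positivity)⟩⟩
  rcases eq_or_ne n 0 with rfl | h0
  · simp; positivity
  have hN' : (1 : ℝ) ≤ N := by exact_mod_cast hN
  have h1 : (#n.divisors : ℝ) ^ k ≤ (C + 1) * N ^ 2 := by
    have : (#n.divisors : ℝ) ^ k ≤ C * n := by exact_mod_cast hC n h0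
    have h2 : (n : ℝ) ≤ N ^ 2 := by exact_mod_cast hn
    exact this.trans (by gcongr; linarith)
  refine le_of_pow_le_pow_left₀ (n := k) (by rintro rfl; simp at hk0) (by positivity)
    (h1.trans ?_)
  rw [mul_pow, Real.rpow_inv_natCast_pow (by positivity) (by rintro rfl; simp at hk0),
    ← Real.rpow_natCast, ← Real.rpow_natCast, ← Real.rpow_mul (by positivity)]
  gcongr
  rw [div_lt_iff₀ hδ] at hk
  push_cast
  linarith

theorem null_dev {δ : ℝ} (hδ : 0 < δ) (hδ' : δ < 1 / 3) {Nn : ℕ → ℕ} (hN : ∀ j, 1 ≤ Nn j)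
    (hN' : Tendsto Nn atTop atTop) (hsum : Summable fun j => (Nn j : ℝ) ^ (-δ))
    {a b η θ : ℝ} (hab : a ≤ b) (hη : 0 < η) (hθ : 0 < θ) (t : ℝ) :
    μH[2 / 3 + δ] {α ∈ Set.Ico t (t + 1) | ∃ᶠ j in atTop, ∀ β, |β - α| ≤ θ / Nn j ^ 3 →
      η * Nn j ≤ |cnt (Nn j) (a / Nn j) (b / Nn j) β - (b - a) * (Nn j - 1)|} = 0 := by
  classical
  obtain ⟨C, hC0, hC⟩ := exists_divisor_bound hδ
  have hpos : ∀ j, (1 : ℝ) ≤ Nn j := fun j => by exact_mod_cast hN j
  let L : ℕ → ℕ := fun j => ⌈(Nn j : ℝ) ^ 3 / θ⌉₊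
  have hL : ∀ j, 0 < L j := fun j => Nat.ceil_pos.2 (by have := hpos j; positivity)
  have hL' : ∀ j, (0 : ℝ) < L j := fun j => by exact_mod_cast hL j
  have hL1 : ∀ j, 1 / (L j : ℝ) ≤ θ / Nn j ^ 3 := fun j => by
    have := hpos j
    rw [← one_div_div _ θ]
    exact one_div_le_one_div_of_le (by positivity) (Nat.le_ceil _)
  let f : ℕ → ℝ → ℝ := fun j β =>
    (cnt (Nn j) (a / Nn j) (b / Nn j) β - (b / Nn j - a / Nn j) * #(prs (Nn j))) ^ 2
  let S : ℕ → Finset ℕ := fun j => (range (L j)).filter fun k : ℕ =>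
    ∀ β ∈ Set.Icc (t + k / L j) (t + (k + 1 : ℕ) / L j), (η * Nn j) ^ 2 ≤ f j β
  refine measure_mono_null ?_ (hausdorff_cantelli (by linarith)
    (fun j k => Set.Icc (t + k / L j) (t + (k + 1 : ℕ) / L j)) S (fun j => 1 / L j)
    (fun j => one_div_nonneg.2 (hL' j).le) ?_ (fun j k => ?_) ?_)
  · rintro α ⟨⟨h1, h2⟩, h⟩
    refine h.mono fun j hj => ?_
    have h3 : 0 ≤ (α - t) * L j := mul_nonneg (by linarith) (hL' j).le
    have h4 : α ∈ Set.Icc (t + ⌊(α - t) * L j⌋₊ / L j) (t + (⌊(α - t) * L j⌋₊ + 1 : ℕ) / L j) := by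
      constructor
      · rw [← le_sub_iff_add_le', div_le_iff₀ (hL' j)]
        exact Nat.floor_le h3
      · rw [← sub_le_iff_le_add', le_div_iff₀ (hL' j)]
        push_cast
        exact (Nat.lt_floor_add_one _).le
    refine ⟨_, mem_filter.2 ⟨mem_range.2 ((Nat.floor_lt h3).2 ?_), fun β hβ => ?_⟩, h4⟩
    · have := hL' j
      nlinarith
    · have h5 := hj β (le_trans (by
        have := h4.1; have := h4.2; have := hβ.1; have := hβ.2
        push_cast at *
        rw [add_div] at *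
        rw [abs_le]; constructor <;> linarith) (hL1 j))
      have e : (b / Nn j - a / Nn j) * #(prs (Nn j)) = (b - a) * (Nn j - 1) := by
        have := hpos j
        rw [card_prs]; field_simp
      simp only [f]
      rw [e, ← sq_abs (_ - _)]
      have := hpos j
      gcongr
  · refine squeeze_zero (fun j => by positivity) hL1 ?_
    exact tendsto_const_nhds.div_atTop ((tendsto_pow_atTop three_ne_zero).comp
      (tendsto_natCast_atTop_atTop.comp hN'))
  · rw [Real.ediam_Icc]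
    refine le_of_eq (congrArg _ ?_)
    push_cast
    ring
  · refine Summable.of_nonneg_of_le (fun j => by positivity) (fun j => ?_)
      (hsum.mul_left (4 * (b - a) * C ^ 2 / η ^ 2 * (1 / θ + 1) ^ (1 / 3 - δ)))
    obtain ⟨T, hT, hT'⟩ := hC (Nn j) (hN j)
    have hn := hpos j
    have hl := hL' j
    have h1 := (cover_count (ii_sq (Nn j) (a / Nn j) (b / Nn j) _) (fun _ => sq_nonneg _) t
      ((η * Nn j) ^ 2) (hL j)).trans (variance hT (by gcongr) t)
    have h2 : (#(S j) : ℝ) ≤ 4 * (b - a) * T ^ 2 / η ^ 2 / Nn j * L j := by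
      rw [← le_div_iff₀ (by positivity)] at h1
      refine h1.trans_eq ?_
      field_simp
    have h3 : (L j : ℝ) ≤ (1 / θ + 1) * Nn j ^ 3 := by
      have h4 : (1 : ℝ) ≤ Nn j ^ 3 := one_le_pow₀ hn
      have := (Nat.ceil_lt_add_one (by positivity : 0 ≤ (Nn j : ℝ) ^ 3 / θ)).le
      refine this.trans ?_
      rw [add_mul, one_div_mul_eq_div]
      linarith
    have h4 : L j * (1 / (L j : ℝ)) ^ (2 / 3 + δ) = L j ^ (1 / 3 - δ) := by
      rw [one_div, Real.inv_rpow hl.le, ← Real.rpow_neg hl.le, ← Real.rpow_one_add' hl.le]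
      · congr 1; ring
      · linarith
    have h5 : (L j : ℝ) ^ (1 / 3 - δ) ≤ (1 / θ + 1) ^ (1 / 3 - δ) * Nn j ^ (1 - 3 * δ) := by
      refine (Real.rpow_le_rpow hl.le h3 (by linarith)).trans_eq ?_
      rw [Real.mul_rpow (by positivity) (by positivity), ← Real.rpow_natCast,
        ← Real.rpow_mul (by positivity)]
      congr 2
      push_cast
      ring
    have h6 : ((Nn j : ℝ) ^ δ) ^ 2 / Nn j * Nn j ^ (1 - 3 * δ) = Nn j ^ (-δ) := by
      rw [← Real.rpow_natCast, ← Real.rpow_mul (by positivity), ← Real.rpow_sub_one (by positivity),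
        ← Real.rpow_add (by positivity)]
      congr 1
      push_cast
      ring
    have hba : 0 ≤ b - a := by linarith
    calc (#(S j) : ℝ) * (1 / L j) ^ (2 / 3 + δ)
        ≤ 4 * (b - a) * T ^ 2 / η ^ 2 / Nn j * L j * (1 / L j) ^ (2 / 3 + δ) := by gcongr
      _ = 4 * (b - a) * T ^ 2 / η ^ 2 / Nn j * L j ^ (1 / 3 - δ) := by rw [mul_assoc, h4]
      _ ≤ 4 * (b - a) * (C * Nn j ^ δ) ^ 2 / η ^ 2 / Nn j *
          ((1 / θ + 1) ^ (1 / 3 - δ) * Nn j ^ (1 - 3 * δ)) := by gcongr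
      _ = _ := by rw [← h6]; ring

open Classical in
theorem R2_eq (a b : ℝ) (N : ℕ) (α : ℝ) : R2 a b N α = 1 / N * ∑ p ∈ prs N,
    if ∃ k : ℤ, α * p.1 ^ 2 - α * p.2 ^ 2 - k ∈ Set.Icc (a / N) (b / N) then (1 : ℝ) else 0 := by
  rw [sum_boole, prs, filter_filter, R2]

theorem prs_mono {N N' : ℕ} (h : N ≤ N') : prs N ⊆ prs N' :=
  filter_subset_filter _ (product_subset_product (Icc_subset_Icc_right h) (Icc_subset_Icc_right h))

theorem abs_shift_le {N : ℕ} {p : ℕ × ℕ} (hp : p ∈ prs N) (hN : 1 ≤ N) {α β θ : ℝ}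
    (h : |β - α| ≤ θ / N ^ 3) : |dsq p * β - (α * p.1 ^ 2 - α * p.2 ^ 2)| ≤ θ / N := by
  have hN' : (0 : ℝ) < N := by exact_mod_cast hN
  have h1 : |(dsq p : ℝ)| ≤ N ^ 2 := by
    have := (Nat.cast_le (α := ℝ)).2 (natAbs_dsq_le hp)
    rwa [Nat.cast_natAbs, Int.cast_abs, Nat.cast_pow] at this
  have e : dsq p * β - (α * p.1 ^ 2 - α * p.2 ^ 2) = dsq p * (β - α) := by
    simp only [dsq]; push_cast; ring
  rw [e, abs_mul]
  refine (mul_le_mul h1 h (abs_nonneg _) (by positivity)).trans_eq ?_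
  field_simp

theorem R2_le {N N' : ℕ} (hN : 1 ≤ N) (h : N ≤ N') {a b a' b' θ α β : ℝ} (hab : a' ≤ b')
    (hβ : |β - α| ≤ θ / N' ^ 3) (h1 : (a' + θ) / N' ≤ a / N) (h2 : b / N < (b' - θ) / N') :
    R2 a b N α ≤ 1 / N * cnt N' (a' / N') (b' / N') β := by
  have hab' : a' / N' ≤ b' / N' := by gcongr
  rw [R2_eq, cnt]
  refine mul_le_mul_of_nonneg_left ?_ (by positivity)
  refine le_trans (sum_le_sum fun p hp => ?_) (sum_le_sum_of_subset_of_nonneg (prs_mono h)
    fun p _ _ => chi_nonneg hab' _)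
  split_ifs with hk
  · obtain ⟨k, hk1, hk2⟩ := hk
    have h3 := abs_le.1 (abs_shift_le (prs_mono h hp) (hN.trans h) hβ)
    rw [add_div] at h1
    rw [sub_div] at h2
    have h4 : k ≤ ⌊dsq p * β - a' / N'⌋ := Int.le_floor.2 (by linarith)
    have h5 : ⌊dsq p * β - b' / N'⌋ + 1 ≤ k := Int.floor_lt.2 (by linarith)
    have h4 := (Int.cast_le (R := ℝ)).2 h4
    have h5 := (Int.cast_le (R := ℝ)).2 h5
    push_cast at h5
    rw [chi]
    linarith
  · exact chi_nonneg hab' _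

theorem le_R2 {N N' : ℕ} (hN : 1 ≤ N') (h : N' ≤ N) {a b a' b' θ α β : ℝ} (hab : b' - a' ≤ 1)
    (hβ : |β - α| ≤ θ / N' ^ 3) (h1 : a / N ≤ (a' - θ) / N') (h2 : (b' + θ) / N' ≤ b / N) :
    1 / N * cnt N' (a' / N') (b' / N') β ≤ R2 a b N α := by
  have hN' : (1 : ℝ) ≤ N' := by exact_mod_cast hN
  have hab' : b' / N' - a' / N' ≤ 1 := by
    rw [← sub_div, div_le_one (by positivity)]; linarith
  rw [R2_eq, cnt]
  refine mul_le_mul_of_nonneg_left ?_ (by positivity)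
  refine le_trans (sum_le_sum fun p hp => ?_) (sum_le_sum_of_subset_of_nonneg (prs_mono h)
    fun p _ _ => by split_ifs <;> norm_num)
  split_ifs with hk
  · have h4 : ⌊dsq p * β - a' / N'⌋ ≤ ⌊dsq p * β - b' / N'⌋ + 1 := by
      rw [← Int.floor_add_one]
      exact Int.floor_le_floor (by linarith)
    have h4 := (Int.cast_le (R := ℝ)).2 h4
    push_cast at h4
    rw [chi]
    linarith
  · by_contra h3
    rw [chi, not_le, sub_pos, Int.cast_lt, Int.floor_lt] at h3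
    have h4 := Int.floor_le (dsq p * β - a' / N')
    have h5 := abs_le.1 (abs_shift_le hp hN hβ)
    rw [sub_div] at h1
    rw [add_div] at h2
    exact hk ⟨⌊dsq p * β - a' / N'⌋, by linarith, by linarith⟩

theorem poissonian_of {Nn : ℕ → ℕ} (h0 : Nn 0 = 1) (hmono : StrictMono Nn)
    (hrat : ∀ γ : ℝ, 1 < γ → ∀ᶠ j in atTop, (Nn (j + 1) : ℝ) ≤ γ * Nn j) {α : ℝ}
    (h : ∀ a b η θ : ℚ, a ≤ b → 0 < η → 0 < θ → ∀ᶠ j in atTop, ∃ β, |β - α| ≤ θ / Nn j ^ 3 ∧
      |cnt (Nn j) (a / Nn j) (b / Nn j) β - (b - a) * (Nn j - 1)| < η * Nn j) :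
    Poissonian α := by
  have hN : ∀ j, 1 ≤ Nn j := fun j => h0 ▸ hmono.monotone (Nat.zero_le j)
  have key : ∀ P : ℕ → Prop, (∀ᶠ j in atTop, ∀ N, Nn j ≤ N → N ≤ Nn (j + 1) → P N) →
      ∀ᶠ N in atTop, P N := by
    intro P hP
    obtain ⟨J, hJ⟩ := eventually_atTop.1 hP
    refine eventually_atTop.2 ⟨Nn J, fun N hN => ?_⟩
    have h1 : ∃ j, N < Nn (j + 1) := ⟨N, lt_of_lt_of_le (Nat.lt_succ_self N) (hmono.id_le _)⟩
    classical
    have h2 := Nat.find_spec h1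
    have h3 : J ≤ Nat.find h1 := Nat.le_of_lt_succ (hmono.lt_iff_lt.1 (hN.trans_lt h2))
    refine hJ _ h3 N ?_ h2.le
    rcases Nat.eq_zero_or_eq_succ_pred (Nat.find h1) with h4 | h4
    · rw [h4] at h3 ⊢
      rwa [Nat.le_zero.1 h3] at hN
    · rw [h4]
      exact not_lt.1 (Nat.find_min h1 (by omega))
  intro a b ha hab hb
  rw [tendsto_order]
  constructor
  · intro c hc
    rcases lt_or_ge c 0 with hc0 | hc0
    · exact Eventually.of_forall fun N => hc0.trans_le (by rw [R2]; positivity)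
    obtain ⟨θ, hθ0, hθ⟩ := exists_rat_btwn (by linarith : 0 < (b - a - c) / 10)
    obtain ⟨a', ha1, ha2⟩ := exists_rat_btwn (by linarith : a + θ < a + 2 * θ)
    obtain ⟨b', hb1, hb2⟩ := exists_rat_btwn (by linarith : b - 3 * θ < b - 2 * θ)
    have hab' : (a' : ℝ) ≤ b' := by linarith
    refine key _ ?_
    filter_upwards [h a' b' θ θ (by exact_mod_cast hab') (by exact_mod_cast hθ0)
      (by exact_mod_cast hθ0), hrat (1 + θ) (by linarith),
      (tendsto_natCast_atTop_atTop.comp hmono.tendsto_atTop).eventually_ge_atTop (1 / θ : ℝ)]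
      with j ⟨β, hβ, hβ'⟩ hj hj' N hN1 hN2
    have n1 : (1 : ℝ) ≤ Nn j := by exact_mod_cast hN j
    have n2 : (Nn j : ℝ) ≤ N := by exact_mod_cast hN1
    have n3 : (N : ℝ) ≤ (1 + θ) * Nn j := le_trans (by exact_mod_cast hN2) hj
    have n4 : 1 ≤ θ * (Nn j : ℝ) := by
      rw [Function.comp, div_le_iff₀ hθ0] at hj'; linarith
    refine lt_of_lt_of_le ?_ (le_R2 (a' := a') (b' := b') (hN j) hN1 (by linarith) hβ ?_ ?_)
    · rw [one_div_mul_eq_div, lt_div_iff₀ (by linarith)]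
      have h1 := (abs_lt.1 hβ').1
      have h2 : c * N ≤ c * ((1 + θ) * Nn j) := by gcongr
      have h3 : c * (θ * Nn j) ≤ 1 * (θ * Nn j) := by gcongr; linarith
      have h4 : (c + 5 * θ) * Nn j ≤ (b' - a') * Nn j := by gcongr; linarith
      nlinarith
    · exact (div_le_div_of_nonneg_left ha (by linarith) n2).trans (by gcongr; linarith)
    · rw [div_le_div_iff₀ (by linarith) (by linarith)]
      have h1 : (b' + θ) * N ≤ (b - θ) * N := by gcongr; linarith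
      have h2 : (b - θ) * N ≤ (b - θ) * ((1 + θ) * Nn j) := by gcongr; linarith
      have h3 : (b - θ) * (1 + θ) * Nn j ≤ b * Nn j := by gcongr; nlinarith
      linarith
  · intro c hc
    obtain ⟨θ, hθ0, hθ⟩ := exists_rat_btwn (lt_min (by linarith : 0 < (c - (b - a)) / 20) one_pos)
    rw [lt_min_iff] at hθ
    obtain ⟨a', ha1, ha2⟩ := exists_rat_btwn (by linarith : a - 2 * θ < a - θ)
    obtain ⟨b', hb1, hb2⟩ := exists_rat_btwn (by linarith : b + 2 * θ < b + 3 * θ)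
    have hab' : (a' : ℝ) ≤ b' := by linarith
    refine key _ ?_
    filter_upwards [(tendsto_add_atTop_nat 1).eventually (h a' b' θ θ (by exact_mod_cast hab')
      (by exact_mod_cast hθ0) (by exact_mod_cast hθ0)), hrat (1 + θ) (by linarith)]
      with j ⟨β, hβ, hβ'⟩ hj N hN1 hN2
    have n1 : (1 : ℝ) ≤ Nn j := by exact_mod_cast hN j
    have n2 : (Nn j : ℝ) ≤ N := by exact_mod_cast hN1
    have n3 : (N : ℝ) ≤ Nn (j + 1) := by exact_mod_cast hN2
    have n4 : (Nn (j + 1) : ℝ) ≤ (1 + θ) * N := hj.trans (by gcongr)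
    refine lt_of_le_of_lt (R2_le ((hN j).trans hN1) hN2 hab' hβ ?_ ?_) ?_
    · exact le_trans (by gcongr; linarith) (div_le_div_of_nonneg_left ha (by linarith) n3)
    · rw [div_lt_div_iff₀ (by linarith) (by linarith)]
      have h1 : b * Nn (j + 1) ≤ b * ((1 + θ) * N) := by gcongr; linarith
      have h2 : (b + θ) * N < (b' - θ) * N := by gcongr <;> linarith
      have h3 : b * (θ * N) ≤ 1 * (θ * N) := by gcongr
      linarith
    · rw [one_div_mul_eq_div, div_lt_iff₀ (by linarith)]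
      have h1 := (abs_lt.1 hβ').2
      have h2 : (b' - a' + θ) * Nn (j + 1) ≤ (b - a + 6 * θ) * ((1 + θ) * N) :=
        mul_le_mul (by linarith) n4 (by positivity) (by linarith)
      have h3 : (b - a + 6 * θ) * (1 + θ) * N ≤ c * N := by gcongr; nlinarith
      nlinarith

theorem hausdorff_eq_zero {δ : ℝ} (hδ : 0 < δ) (hδ' : δ < 1 / 3) :
    μH[2 / 3 + δ] {α : ℝ | ¬Poissonian α} = 0 := by
  obtain ⟨A, hA⟩ := exists_nat_gt (1 / δ)
  have hA0 : A ≠ 0 := by rintro rfl; exact absurd hA (by simp [hδ.le])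
  let Nn : ℕ → ℕ := fun j => (j + 1) ^ A
  have hmono : StrictMono Nn := fun i j hij => Nat.pow_lt_pow_left (by omega) hA0
  have hN : ∀ j, 1 ≤ Nn j := fun j => Nat.one_le_pow _ _ (Nat.succ_pos j)
  have hsum : Summable fun j => (Nn j : ℝ) ^ (-δ) := by
    have h1 : A * -δ < -1 := by rw [div_lt_iff₀ hδ] at hA; linarith
    refine ((summable_nat_add_iff 1).2 (Real.summable_nat_rpow.2 h1)).congr fun j => ?_
    simp only [Nn]
    rw [Nat.cast_pow, Real.rpow_mul (by positivity), Real.rpow_natCast]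
  have hrat : ∀ γ : ℝ, 1 < γ → ∀ᶠ j in atTop, (Nn (j + 1) : ℝ) ≤ γ * Nn j := by
    intro γ hγ
    have h1 : Tendsto (fun j : ℕ => (1 + 1 / ((j : ℝ) + 1)) ^ A) atTop (𝓝 ((1 + 0) ^ A)) :=
      (tendsto_const_nhds.add tendsto_one_div_add_atTop_nhds_zero_nat).pow A
    filter_upwards [h1.eventually_le_const (by simpa using hγ)] with j hj
    simp only [Nn]
    push_cast
    rw [← div_le_iff₀ (by positivity), ← div_pow]
    refine le_of_eq_of_le (congrArg (· ^ A) ?_) hj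
    field_simp
  refine measure_mono_null (t := ⋃ x : ℚ × ℚ × ℚ × ℚ × ℤ,
    ⋃ _ : x.1 ≤ x.2.1 ∧ 0 < x.2.2.1 ∧ 0 < x.2.2.2.1,
    {α ∈ Set.Ico (x.2.2.2.2 : ℝ) (x.2.2.2.2 + 1) | ∃ᶠ j in atTop, ∀ β,
      |β - α| ≤ x.2.2.2.1 / Nn j ^ 3 → x.2.2.1 * Nn j ≤
        |cnt (Nn j) (x.1 / Nn j) (x.2.1 / Nn j) β - (x.2.1 - x.1) * (Nn j - 1)|}) ?_ ?_
  · intro α hα
    by_contra hc
    refine hα (poissonian_of (by simp [Nn]) hmono hrat fun a b η θ h1 h2 h3 => ?_)
    simp only [Set.mem_iUnion, not_exists] at hc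
    have := hc (a, b, η, θ, ⌊α⌋) ⟨h1, h2, h3⟩
    simp only [Set.mem_ofPred_eq, not_and] at this
    have := not_frequently.1 (this ⟨Int.floor_le α, Int.lt_floor_add_one α⟩)
    simpa only [not_forall, not_le, exists_prop] using this
  · exact measure_iUnion_null fun x => measure_iUnion_null fun hx =>
      null_dev hδ hδ' hN hmono.tendsto_atTop hsum (by exact_mod_cast hx.1)
        (by exact_mod_cast hx.2.1) (by exact_mod_cast hx.2.2) _

theorem dimH_le : dimH {α : ℝ | ¬Poissonian α} ≤ 2 / 3 := by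
  refine _root_.dimH_le fun d hd => ?_
  have h1 : (d : ℝ) ≤ 2 / 3 := by
    by_contra h
    obtain ⟨δ, h1, h2⟩ := exists_between (lt_min (sub_pos.2 (not_le.1 h)) (by norm_num : (0 : ℝ) < 1 / 3))
    rw [lt_min_iff] at h2
    have := Measure.hausdorffMeasure_mono (by linarith : 2 / 3 + δ ≤ d) {α : ℝ | ¬Poissonian α}
    rw [hd, hausdorff_eq_zero h1 h2.2] at this
    simp at this
  have h2 : d ≤ 2 / 3 := by exact_mod_cast h1
  refine (ENNReal.coe_le_coe.2 h2).trans_eq ?_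
  simp

end Pool.Agent.Lib.MP_30b5ba_nt
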