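import Mathlib

/-!
Pair correlation of `α n²` modulo one: definitions.
-/

namespace Pool.Agent.Lib.MP_30b5ba_nt

open Finset Filter Topology

open Classical in
/-- The pair correlation `R₂([a,b], N, α)`. -/
noncomputable def R2 (a b : ℝ) (N : ℕ) (α : ℝ) : ℝ :=
  1 / N * #((Icc 1 N ×ˢ Icc 1 N).filter fun p : ℕ × ℕ => p.1 ≠ p.2 ∧
    ∃ k : ℤ, α * p.1 ^ 2 - α * p.2 ^ 2 - k ∈ Set.Icc (a / N) (b / N))

/-- `R₂([a,b], N, α) → b - a` for every interval `[a,b] ⊆ [0,1]`. -/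
def Poissonian (α : ℝ) : Prop :=
  ∀ a b : ℝ, 0 ≤ a → a ≤ b → b ≤ 1 → Tendsto (fun N => R2 a b N α) atTop (𝓝 (b - a))

end Pool.Agent.Lib.MP_30b5ba_nt
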