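import Pool.Agent.Lib.MP_30b5ba_nt.Defs

/-!
Pair correlation of `α n²`: the exceptional set has dimension at least `2/3`.
-/

namespace Pool.Agent.Lib.MP_30b5ba_nt

open Finset MeasureTheory Filter Topology

theorem not_poissonian {α : ℝ}
    (h : ∀ k : ℕ, ∃ q : ℕ, k ≤ q ∧ ∃ p : ℤ, 0 ≤ α - p / q ∧ α - p / q ≤ 1 / (4 * q ^ 3)) :
    ¬Poissonian α := by
  classical
  intro hP
  have h1 := (hP 0 (1 / 4) le_rfl (by norm_num) (by norm_num)).eventually_lt_const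
    (by norm_num : (1 / 4 - 0 : ℝ) < 1 / 3)
  obtain ⟨k, hk⟩ := eventually_atTop.1 h1
  obtain ⟨q, hq, p, h2, h3⟩ := h (k + 6)
  have hq' : (6 : ℝ) ≤ q := by exact_mod_cast (by omega : 6 ≤ q)
  refine absurd (hk q (by omega)) (not_lt.2 ?_)
  rw [R2, one_div_mul_eq_div, le_div_iff₀ (by linarith)]
  have h4 : #(Icc 1 ((q - 1) / 2)) ≤ #((Icc 1 q ×ˢ Icc 1 q).filter fun r : ℕ × ℕ => r.1 ≠ r.2 ∧
      ∃ k : ℤ, α * r.1 ^ 2 - α * r.2 ^ 2 - k ∈ Set.Icc (0 / (q : ℝ)) (1 / 4 / q)) := by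
    refine card_le_card_of_injOn (fun j => (q - j, j)) (fun j hj => ?_)
      fun i _ j _ h => (Prod.mk.inj h).2
    simp only [coe_Icc, Set.mem_Icc] at hj
    simp only [coe_filter, mem_product, mem_Icc, Set.mem_ofPred_eq]
    refine ⟨by omega, by omega, p * (q - 2 * j), ?_⟩
    have h5 : (2 * j : ℝ) ≤ q := by exact_mod_cast (by omega : 2 * j ≤ q)
    have h6 : (0 : ℝ) ≤ j := by positivity
    have e : α * ((q - j : ℕ) : ℝ) ^ 2 - α * j ^ 2 - (p * (q - 2 * j) : ℤ) =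
        (α - p / q) * (q * (q - 2 * j)) := by
      rw [Nat.cast_sub (by omega)]
      push_cast
      field_simp
      ring
    rw [e, zero_div]
    refine ⟨mul_nonneg h2 (mul_nonneg (by linarith) (by linarith)), ?_⟩
    calc _ ≤ 1 / (4 * q ^ 3) * ((q : ℝ) * q) := by gcongr; linarith
      _ = _ := by field_simp
  refine le_trans ?_ (Nat.cast_le.2 h4)
  rw [Nat.card_Icc]
  have : q ≤ 3 * ((q - 1) / 2 + 1 - 1) := by omega
  have : (q : ℝ) ≤ 3 * ((q - 1) / 2 + 1 - 1 : ℕ) := by exact_mod_cast this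
  linarith

theorem exists_primes {σ : ℝ} (hσ : σ < 1) (K : ℝ) : ∀ᶠ Q : ℕ in atTop, ∃ (M : ℕ) (P : Finset ℕ),
    (∀ q ∈ P, q.Prime ∧ M ≤ q ∧ q ≤ Q) ∧ M ≤ #P ∧ K * (Q : ℝ) ^ σ ≤ M := by
  wlog h0 : 0 ≤ σ ∧ 1 ≤ K generalizing σ K
  · filter_upwards [this (σ := max σ 0) (max_lt hσ one_pos) (max K 1)
      ⟨le_max_right _ _, le_max_right _ _⟩, eventually_ge_atTop 1] with Q ⟨M, P, h1, h2, h3⟩ hQ
    refine ⟨M, P, h1, h2, le_trans ?_ h3⟩
    have : (1 : ℝ) ≤ Q := by exact_mod_cast hQ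
    gcongr
    · exact le_max_left _ _
    · exact le_max_left _ _
  have h1 := (isLittleO_log_rpow_atTop (by linarith : 0 < 1 - σ)).bound
    (by have := h0.2; positivity : 0 < 1 / (20 * K))
  have h2 := Real.isLittleO_log_id_atTop.bound (by norm_num : (0 : ℝ) < 1 / 10)
  filter_upwards [tendsto_natCast_atTop_atTop.eventually h1,
    (tendsto_atTop_add_const_right _ 1 tendsto_natCast_atTop_atTop).eventually h2,
    eventually_ge_atTop 2] with Q h1 h2 hQ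
  have hQ' : (2 : ℝ) ≤ Q := by exact_mod_cast hQ
  have hl : 0 < Real.log Q := Real.log_pos (by linarith)
  have h3 := Chebyshev.pi_ge Q
  rw [Real.norm_of_nonneg hl.le, Real.norm_of_nonneg (by positivity)] at h1
  rw [Real.norm_of_nonneg (Real.log_nonneg (by linarith)), id,
    Real.norm_of_nonneg (by positivity)] at h2
  rw [div_le_iff₀ hl] at h3
  have h4 : 4 * (K * (Q : ℝ) ^ σ) ≤ Nat.primeCounting Q := by
    have h5 := Real.log_two_gt_d9
    have h6 : (Q : ℝ) ^ σ * Q ^ (1 - σ) = Q := by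
      rw [← Real.rpow_add (by linarith)]; simp
    have hK := h0.2
    have h7 : 4 * (K * (Q : ℝ) ^ σ) * Real.log Q ≤ Q / 5 := by
      refine (mul_le_mul_of_nonneg_left h1 (by positivity)).trans_eq ?_
      field_simp
      linarith
    refine le_of_mul_le_mul_right ?_ hl
    nlinarith
  have h5 : 1 ≤ K * (Q : ℝ) ^ σ :=
    one_le_mul_of_one_le_of_one_le h0.2 (Real.one_le_rpow (by linarith) h0.1)
  refine ⟨Nat.primeCounting Q / 2, Nat.primesLE Q \ range (Nat.primeCounting Q / 2),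
    fun q hq => ?_, ?_, ?_⟩
  · rw [Finset.mem_sdiff, Nat.mem_primesLE, mem_range, not_lt] at hq
    exact ⟨hq.1.2, hq.2, hq.1.1⟩
  · have := le_card_sdiff (range (Nat.primeCounting Q / 2)) (Nat.primesLE Q)
    rw [Nat.primesLE_card_eq_primeCounting, card_range] at this
    omega
  · have : Nat.primeCounting Q ≤ 2 * (Nat.primeCounting Q / 2) + 1 := by omega
    have : (Nat.primeCounting Q : ℝ) ≤ 2 * (Nat.primeCounting Q / 2 : ℕ) + 1 := by
      exact_mod_cast this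
    linarith

theorem card_le_of_sep {ι : Type*} (S : Finset ι) (f : ι → ℝ) {u L ε : ℝ} (hε : 0 < ε)
    (hL : 0 ≤ L) (h1 : ∀ i ∈ S, f i ∈ Set.Icc u (u + L))
    (h2 : ∀ i ∈ S, ∀ j ∈ S, i ≠ j → ε ≤ |f i - f j|) : (#S : ℝ) ≤ L / ε + 1 := by
  have h3 : #S ≤ #(range (⌊L / ε⌋₊ + 1)) := by
    refine card_le_card_of_injOn (fun i => ⌊(f i - u) / ε⌋₊) (fun i hi => ?_) fun i hi j hj h => ?_
    · simp only [coe_range, Set.mem_Iio, Nat.lt_succ_iff]
      refine Nat.floor_le_floor ?_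
      gcongr
      linarith [(h1 i hi).2]
    · by_contra hij
      have h4 := h2 i hi j hj hij
      have a1 := Nat.floor_le (div_nonneg (sub_nonneg.2 (h1 i hi).1) hε.le)
      have a2 := Nat.floor_le (div_nonneg (sub_nonneg.2 (h1 j hj).1) hε.le)
      have a3 := Nat.lt_floor_add_one ((f i - u) / ε)
      have a4 := Nat.lt_floor_add_one ((f j - u) / ε)
      simp only at h
      rw [h] at a1 a3
      rw [le_div_iff₀ hε] at a1 a2
      rw [div_lt_iff₀ hε] at a3 a4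
      rcases le_abs'.1 h4 with h5 | h5 <;> linarith
  rw [card_range] at h3
  have h4 : (#S : ℝ) ≤ ⌊L / ε⌋₊ + 1 := by exact_mod_cast h3
  exact h4.trans (by gcongr; exact Nat.floor_le (by positivity))

open Classical in
/-- Total weight of the sets meeting `[x, x + δ]`. -/
noncomputable def wt (t : ℕ → Set ℝ) (w : ℕ → ℝ) (x δ : ℝ) : ℝ :=
  ∑' n, if (t n ∩ Set.Icc x (x + δ)).Nonempty then w n else 0

open Classical in
theorem summable_wt {w : ℕ → ℝ} (hw0 : ∀ n, 0 < w n) (hw : Summable w)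
    (p : ℕ → Prop) : Summable fun n => if p n then w n else 0 :=
  Summable.of_nonneg_of_le (fun n => by split_ifs; exacts [(hw0 n).le, le_rfl])
    (fun n => by split_ifs; exacts [le_rfl, (hw0 n).le]) hw

theorem le_wt {t : ℕ → Set ℝ} {w : ℕ → ℝ} (hw0 : ∀ n, 0 < w n) (hw : Summable w) {x δ : ℝ}
    {n : ℕ} (h : (t n ∩ Set.Icc x (x + δ)).Nonempty) : w n ≤ wt t w x δ := by
  have := (summable_wt hw0 hw fun n => (t n ∩ Set.Icc x (x + δ)).Nonempty).le_tsum n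
    fun k _ => by split_ifs; exacts [(hw0 k).le, le_rfl]
  rwa [if_pos h] at this

theorem step {s : ℝ} (hs0 : 0 < s) (hs : s ≤ 2 / 3) {t : ℕ → Set ℝ} {w : ℕ → ℝ}
    (hw0 : ∀ n, 0 < w n) (hw : Summable w) (ht : ∀ n, ∀ x ∈ t n, ∀ y ∈ t n, |x - y| ^ s ≤ w n)
    {x δ : ℝ} (hx : 0 < x) (hδ : 0 < δ) (hxδ : x + δ < 1) (h : wt t w x δ ≤ δ ^ s / 32)
    {Q M : ℕ} {P : Finset ℕ} (hP : ∀ q ∈ P, q.Prime ∧ M ≤ q ∧ q ≤ Q) (hM : M ≤ #P)
    (H0 : 4 ≤ M * δ) (H1 : (Q : ℝ) ^ 2 ≤ δ * M ^ 2 * (M : ℝ) ^ (1 / 3 : ℝ))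
    (H2 : 32 * (4 * (Q : ℝ) ^ 3) ^ s ≤ M ^ 2 * δ) :
    ∃ q ∈ P, ∃ p : ℤ, x ≤ p / q ∧ p / q ≤ x + δ / 2 ∧
      wt t w (p / q) (1 / (4 * Q ^ 3)) ≤ (1 / (4 * (Q : ℝ) ^ 3)) ^ s / 32 := by
  classical
  have hδ1 : δ ≤ 1 := by linarith
  have hM4 : (4 : ℝ) ≤ M := H0.trans (mul_le_of_le_one_right (by positivity) hδ1)
  have hM0 : 0 < M := by exact_mod_cast (by linarith : (0 : ℝ) < M)
  obtain ⟨q0, hq0⟩ := card_pos.1 (hM0.trans_le hM)
  have hMQ : (M : ℝ) ≤ Q := by exact_mod_cast (hP q0 hq0).2.1.trans (hP q0 hq0).2.2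
  have hQ4 : (4 : ℝ) ≤ Q := hM4.trans hMQ
  have hq : ∀ q ∈ P, (M : ℝ) ≤ q ∧ (q : ℝ) ≤ Q := fun q h =>
    ⟨by exact_mod_cast (hP q h).2.1, by exact_mod_cast (hP q h).2.2⟩
  set e : ℝ := 1 / (4 * Q ^ 3) with he
  have he0 : 0 < e := by positivity
  have he1 : e ≤ 1 / Q ^ 2 := one_div_le_one_div_of_le (by positivity) (by nlinarith)
  have he2 : (1 : ℝ) / Q ^ 2 ≤ 1 / M := one_div_le_one_div_of_le (by positivity) (by nlinarith)
  have he3 : (1 : ℝ) / M ≤ δ / 4 := by rw [div_le_div_iff₀ (by positivity) (by norm_num)]; linarith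
  set τ : ℝ := e ^ s / 32 with hτ
  have hτ0 : 0 < τ := by positivity
  have hδs : 0 < δ ^ s := by positivity
  have hδs1 : δ ^ s ≤ 1 := Real.rpow_le_one hδ.le hδ1 hs0.le
  let I : ℕ → Finset ℤ := fun q => Icc ⌈x * q⌉ ⌊(x + δ / 2) * q⌋
  let C : Finset (Σ _ : ℕ, ℤ) := P.sigma I
  let f : (Σ _ : ℕ, ℤ) → ℝ := fun c => c.2 / c.1
  have hf : ∀ c ∈ C, x ≤ f c ∧ f c ≤ x + δ / 2 := by
    intro c hc
    obtain ⟨h1, h2⟩ := mem_sigma.1 hc
    have h3 : (0 : ℝ) < c.1 := by linarith [(hq _ h1).1]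
    simp only [I, mem_Icc, Int.ceil_le, Int.le_floor] at h2
    exact ⟨(le_div_iff₀ h3).2 h2.1, (div_le_iff₀ h3).2 h2.2⟩
  have hC : (∑ q ∈ P, (q : ℝ)) * δ / 4 ≤ #C := by
    rw [card_sigma, Nat.cast_sum, sum_mul, sum_div]
    refine sum_le_sum fun q hqP => ?_
    have h1 := Int.ceil_lt_add_one (x * q)
    have h2 := Int.lt_floor_add_one ((x + δ / 2) * q)
    have h3 : M * δ ≤ q * δ := mul_le_mul_of_nonneg_right (hq q hqP).1 hδ.le
    have h4 : ⌈x * q⌉ ≤ ⌊(x + δ / 2) * q⌋ + 1 := by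
      rw [← Int.cast_le (R := ℝ)]; push_cast; linarith
    rw [← Int.cast_natCast (#(I q)), Int.card_Icc_of_le _ _ h4]
    push_cast
    linarith
  have hC' : (M : ℝ) ^ 2 * δ / 4 ≤ #C := by
    refine le_trans ?_ hC
    gcongr
    have := card_nsmul_le_sum P (fun q => (q : ℝ)) M fun q h => (hq q h).1
    rw [nsmul_eq_mul] at this
    have h1 : (M : ℝ) ≤ #P := by exact_mod_cast hM
    nlinarith
  have hC0 : (0 : ℝ) < #C := lt_of_lt_of_le (by positivity) hC'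
  have hsep : ∀ c ∈ C, ∀ c' ∈ C, c ≠ c' → 1 / (Q : ℝ) ^ 2 ≤ |f c - f c'| := by
    rintro ⟨q, p⟩ hc ⟨q', p'⟩ hc' hne
    have h1 := (mem_sigma.1 hc).1
    have h2 := (mem_sigma.1 hc').1
    simp only at h1 h2
    have h3 : (0 : ℝ) < q := by linarith [(hq _ h1).1]
    have h4 : (0 : ℝ) < q' := by linarith [(hq _ h2).1]
    have h5 : p * q' - p' * q ≠ 0 := by
      intro h5
      by_cases hqq : q = q'
      · subst hqq
        have : p = p' := mul_right_cancel₀ (b := (q : ℤ)) (by exact_mod_cast h3.ne') (by linarith)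
        exact hne (by rw [this])
      · have h6 : IsCoprime (q : ℤ) q' := Nat.isCoprime_iff_coprime.2
          ((Nat.coprime_primes (hP q h1).1 (hP q' h2).1).2 hqq)
        obtain ⟨k, rfl⟩ := h6.dvd_of_dvd_mul_right (y := p) ⟨p', by linarith⟩
        have h7 := hf _ hc
        simp only [f] at h7
        push_cast at h7
        rw [mul_div_cancel_left₀ _ h3.ne'] at h7
        have h8 : (0 : ℤ) < k := by exact_mod_cast hx.trans_le h7.1
        have h9 : k < (1 : ℤ) := by exact_mod_cast (by linarith : (k : ℝ) < 1)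
        omega
    have h6 : (1 : ℝ) ≤ |(p * q' - p' * q : ℝ)| := by exact_mod_cast Int.one_le_abs h5
    simp only [f]
    rw [div_sub_div _ _ h3.ne' h4.ne', abs_div, abs_of_pos (mul_pos h3 h4), mul_comm (q : ℝ) p', sq]
    gcongr
    exacts [(hP _ h1).2.2, (hP _ h2).2.2]
  have key : ∀ n, ∑ c ∈ C, (if (t n ∩ Set.Icc (f c) (f c + e)).Nonempty then min (w n) τ else 0) ≤
      16 * #C * τ / δ ^ s * if (t n ∩ Set.Icc x (x + δ)).Nonempty then w n else 0 := by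
    intro n
    rw [← sum_filter, sum_const, nsmul_eq_mul]
    set S := {c ∈ C | (t n ∩ Set.Icc (f c) (f c + e)).Nonempty} with hS
    have hwn := hw0 n
    rcases S.eq_empty_or_nonempty with h0 | ⟨c0, hc0⟩
    · rw [h0, card_empty, Nat.cast_zero, zero_mul]
      split_ifs <;> positivity
    obtain ⟨hc0, y, hy, hy1, hy2⟩ := mem_filter.1 hc0
    have hJ : (t n ∩ Set.Icc x (x + δ)).Nonempty :=
      ⟨y, hy, by linarith [(hf _ hc0).1], by linarith [(hf _ hc0).2]⟩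
    rw [if_pos hJ]
    set D := w n ^ s⁻¹ with hD
    have hD0 : 0 < D := by positivity
    have hDs : D ^ s = w n := Real.rpow_inv_rpow hwn.le hs0.ne'
    have hDδ : D ≤ δ := by
      rw [← Real.rpow_le_rpow_iff hD0.le hδ.le hs0, hDs]
      linarith [le_wt hw0 hw hJ]
    have hwin : ∀ c ∈ S, f c ∈ Set.Icc (y - D - e) (y - D - e + (2 * D + e)) := by
      intro c hc
      obtain ⟨-, z, hz, hz1, hz2⟩ := mem_filter.1 hc
      have h1 : |z - y| ≤ D := by
        rw [← Real.rpow_le_rpow_iff (abs_nonneg _) hD0.le hs0, hDs]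
        exact ht n z hz y hy
      have := abs_le.1 h1
      constructor <;> linarith
    have b1 := card_le_of_sep S f (by positivity) (by positivity) hwin fun c hc c' hc' =>
      hsep c (mem_filter.1 hc).1 c' (mem_filter.1 hc').1
    rw [div_div_eq_mul_div, div_one] at b1
    have hm1 := min_le_left (w n) τ
    have hm2 := min_le_right (w n) τ
    rw [div_mul_eq_mul_div, le_div_iff₀ hδs]
    rcases le_or_gt (1 / (M : ℝ)) D with hA | hA
    · have b2 : (#S : ℝ) ≤ ∑ q ∈ P, 4 * D * q := by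
        rw [card_eq_sum_card_fiberwise (f := fun c => c.1) (t := P)
          fun c hc => (mem_sigma.1 (mem_filter.1 hc).1).1, Nat.cast_sum]
        refine sum_le_sum fun q hqP => ?_
        have h3 : (0 : ℝ) < q := by linarith [(hq _ hqP).1]
        refine (card_le_of_sep _ f (one_div_pos.2 h3) (by positivity)
          (fun c hc => hwin c (mem_filter.1 hc).1) ?_).trans ?_
        · rintro ⟨q1, p1⟩ h1 ⟨q2, p2⟩ h2 hne
          obtain rfl : q1 = q := (mem_filter.1 h1).2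
          obtain rfl : q2 = q1 := (mem_filter.1 h2).2
          have h4 : p1 - p2 ≠ 0 := fun h => hne (by rw [sub_eq_zero.1 h])
          have h6 : (1 : ℝ) ≤ |(p1 - p2 : ℝ)| := by exact_mod_cast Int.one_le_abs h4
          simp only [f]
          rw [← sub_div, abs_div, abs_of_pos h3]
          gcongr
        · rw [div_div_eq_mul_div, div_one]
          have h4 : 1 ≤ D * q := by
            rw [div_le_iff₀ (by positivity)] at hA
            exact hA.trans (mul_le_mul_of_nonneg_left (hq _ hqP).1 hD0.le)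
          have h5 : e * q ≤ D * q := by gcongr; linarith
          linarith
      rw [← mul_sum] at b2
      have h1 : D / δ ≤ w n / δ ^ s := by
        rw [← hDs, ← Real.div_rpow hD0.le hδ.le]
        exact Real.self_le_rpow_of_le_one (by positivity) ((div_le_one hδ).2 hDδ) (by linarith)
      have h2 : (#S : ℝ) ≤ 16 * #C * (D / δ) := by
        rw [← mul_div_assoc, le_div_iff₀ hδ]
        nlinarith
      have h3 : (#S : ℝ) * δ ^ s ≤ 16 * #C * w n := by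
        rw [← le_div_iff₀ hδs, mul_div_assoc]
        exact h2.trans (by gcongr)
      calc _ ≤ #S * τ * δ ^ s := by gcongr
        _ = #S * δ ^ s * τ := by ring
        _ ≤ 16 * #C * w n * τ := by gcongr
        _ = _ := by ring
    rcases le_or_gt (1 / (Q : ℝ) ^ 2) D with hB | hB
    · have h1 : 1 ≤ D * Q ^ 2 := (div_le_iff₀ (by positivity)).1 hB
      have h2 : e * Q ^ 2 ≤ D * Q ^ 2 := by gcongr; linarith
      have h3 : D * (M : ℝ) ^ (1 / 3 : ℝ) ≤ w n := by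
        have h4 : D * M ≤ 1 := ((lt_div_iff₀ (by positivity)).1 hA).le
        have h5 : D ≤ 1 := by linarith
        calc D * (M : ℝ) ^ (1 / 3 : ℝ) = D ^ (2 / 3 : ℝ) * (D * M) ^ (1 / 3 : ℝ) := by
              rw [Real.mul_rpow hD0.le (by positivity), ← mul_assoc, ← Real.rpow_add hD0]
              norm_num
          _ ≤ D ^ s * 1 := mul_le_mul (Real.rpow_le_rpow_of_exponent_ge hD0 h5 hs)
              (Real.rpow_le_one (by positivity) h4 (by norm_num)) (by positivity) (by positivity)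
          _ = _ := by rw [mul_one, hDs]
      have h4 : (#S : ℝ) ≤ 16 * #C * w n :=
        calc (#S : ℝ) ≤ 4 * D * Q ^ 2 := by linarith
          _ ≤ 4 * D * (δ * M ^ 2 * (M : ℝ) ^ (1 / 3 : ℝ)) := by gcongr
          _ = 16 * (M ^ 2 * δ / 4) * (D * (M : ℝ) ^ (1 / 3 : ℝ)) := by ring
          _ ≤ _ := by gcongr
      calc _ ≤ 16 * #C * w n * τ * 1 := by gcongr
        _ = _ := by ring
    · have h1 : D * Q ^ 2 ≤ 1 := ((lt_div_iff₀ (by positivity)).1 hB).le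
      have h2 : e * Q ^ 2 ≤ 1 := (le_div_iff₀ (by positivity)).1 he1
      have h3 : 1 ≤ M ^ 2 * δ * τ := by
        rw [hτ, he, one_div, Real.inv_rpow (by positivity), inv_eq_one_div, div_div, mul_one_div,
          le_div_iff₀ (by positivity)]
        linarith
      calc _ ≤ 4 * w n * 1 := by gcongr; linarith
        _ ≤ 4 * w n * (M ^ 2 * δ * τ) := by gcongr
        _ = 16 * (M ^ 2 * δ / 4) * τ * w n := by ring
        _ ≤ _ := by gcongr
  have hsm : ∀ c, Summable fun n =>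
      if (t n ∩ Set.Icc (f c) (f c + e)).Nonempty then min (w n) τ else 0 := fun c =>
    summable_wt (fun n => lt_min (hw0 n) hτ0) (Summable.of_nonneg_of_le
      (fun n => (lt_min (hw0 n) hτ0).le) (fun n => min_le_left _ _) hw) _
  have h1 := Summable.tsum_le_tsum key (summable_sum fun c _ => hsm c)
    ((summable_wt hw0 hw _).mul_left _)
  rw [Summable.tsum_finsetSum fun c _ => hsm c, tsum_mul_left] at h1
  have h2 : 16 * #C * τ / δ ^ s * wt t w x δ < ∑ _c ∈ C, τ := by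
    rw [sum_const, nsmul_eq_mul]
    calc _ ≤ 16 * #C * τ / δ ^ s * (δ ^ s / 32) := by gcongr
      _ = #C * τ / 2 := by field_simp; ring
      _ < _ := half_lt_self (by positivity)
  obtain ⟨c, hc, h3⟩ := exists_lt_of_sum_lt (h1.trans_lt h2)
  refine ⟨c.1, (mem_sigma.1 hc).1, c.2, (hf c hc).1, (hf c hc).2, le_of_eq_of_le ?_ h3.le⟩
  refine tsum_congr fun n => ?_
  split_ifs with h4
  · have h5 := ((hsm c).le_tsum n fun k _ => by
      split_ifs; exacts [(lt_min (hw0 k) hτ0).le, le_rfl]).trans_lt h3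
    rw [if_pos h4] at h5
    exact (min_eq_left ((min_lt_iff.1 h5).resolve_right (lt_irrefl _)).le).symm
  · rfl

theorem step' {s : ℝ} (hs0 : 0 < s) (hs : s < 2 / 3) {t : ℕ → Set ℝ} {w : ℕ → ℝ}
    (hw0 : ∀ n, 0 < w n) (hw : Summable w) (ht : ∀ n, ∀ x ∈ t n, ∀ y ∈ t n, |x - y| ^ s ≤ w n)
    {x δ : ℝ} (hx : 0 < x) (hδ : 0 < δ) (hxδ : x + δ < 1) (h : wt t w x δ ≤ δ ^ s / 32) (k : ℕ) :
    ∃ x' δ', x ≤ x' ∧ 0 < δ' ∧ x' + δ' ≤ x + δ ∧ δ' ≤ δ / 2 ∧ wt t w x' δ' ≤ δ' ^ s / 32 ∧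
      ∃ q : ℕ, k ≤ q ∧ ∃ p : ℤ, x' = p / q ∧ δ' ≤ 1 / (4 * q ^ 3) := by
  have hδ1 : δ ≤ 1 := by linarith
  obtain ⟨Q, ⟨M, P, hP, hM, hK⟩, hQ⟩ := ((exists_primes (σ := max (6 / 7) (3 * s / 2))
    (max_lt (by norm_num) (by linarith)) (128 / δ + k)).and (eventually_ge_atTop 1)).exists
  have hQ' : (1 : ℝ) ≤ Q := by exact_mod_cast hQ
  have hk : (0 : ℝ) ≤ k := by positivity
  have hK0 : 128 ≤ 128 / δ := by rw [le_div_iff₀ hδ]; linarith
  have h1 : (1 : ℝ) ≤ (Q : ℝ) ^ max (6 / 7 : ℝ) (3 * s / 2) :=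
    Real.one_le_rpow hQ' (by positivity)
  have h2 : 128 / δ + k ≤ M := le_trans (le_mul_of_one_le_right (by positivity) h1) hK
  have h3 : 128 / δ * (Q : ℝ) ^ (6 / 7 : ℝ) ≤ M := le_trans (mul_le_mul (by linarith)
    (Real.rpow_le_rpow_of_exponent_le hQ' (le_max_left _ _)) (by positivity) (by positivity)) hK
  have h4 : 128 / δ * (Q : ℝ) ^ (3 * s / 2) ≤ M := le_trans (mul_le_mul (by linarith)
    (Real.rpow_le_rpow_of_exponent_le hQ' (le_max_right _ _)) (by positivity) (by positivity)) hK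
  have h5 : 128 ≤ M * δ := by rw [← div_le_iff₀ hδ]; linarith
  obtain ⟨q, hq, p, a1, a2, a3⟩ := step hs0 hs.le hw0 hw ht hx hδ hxδ h hP hM (by linarith) (by
    have e1 : (Q : ℝ) ^ 2 = ((Q : ℝ) ^ (6 / 7 : ℝ)) ^ 2 * ((Q : ℝ) ^ (6 / 7 : ℝ)) ^ (1 / 3 : ℝ) := by
      rw [← Real.rpow_natCast, ← Real.rpow_natCast, ← Real.rpow_mul (by positivity),
        ← Real.rpow_mul (by positivity), ← Real.rpow_add (by positivity)]
      norm_num
    rw [div_mul_eq_mul_div, div_le_iff₀ hδ] at h3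
    have h6 : (0 : ℝ) ≤ (Q : ℝ) ^ (6 / 7 : ℝ) := by positivity
    have h7 : (M : ℝ) * δ ≤ M := mul_le_of_le_one_right (by positivity) hδ1
    rw [e1]
    refine mul_le_mul ?_ (Real.rpow_le_rpow h6 (by linarith) (by norm_num)) (by positivity)
      (by positivity)
    calc _ ≤ (M * δ) * (M : ℝ) := by
          rw [sq]; exact mul_le_mul (by linarith) (by linarith) h6 (by positivity)
      _ = _ := by ring) (by
    have e1 : (4 * (Q : ℝ) ^ 3) ^ s = 4 ^ s * ((Q : ℝ) ^ (3 * s / 2)) ^ 2 := by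
      rw [Real.mul_rpow (by norm_num) (by positivity), ← Real.rpow_natCast, ← Real.rpow_natCast,
        ← Real.rpow_mul (by positivity), ← Real.rpow_mul (by positivity)]
      congr 2
      push_cast
      ring
    have e2 : (4 : ℝ) ^ s ≤ 4 := by
      simpa using Real.rpow_le_rpow_of_exponent_le (by norm_num : (1 : ℝ) ≤ 4) (by linarith : s ≤ 1)
    rw [div_mul_eq_mul_div, div_le_iff₀ hδ] at h4
    have h6 : (0 : ℝ) ≤ (Q : ℝ) ^ (3 * s / 2) := by positivity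
    have h7 : (M : ℝ) * δ ≤ M := mul_le_of_le_one_right (by positivity) hδ1
    rw [e1]
    calc _ ≤ 32 * (4 * ((Q : ℝ) ^ (3 * s / 2)) ^ 2) := by gcongr
      _ = 128 * (Q : ℝ) ^ (3 * s / 2) * (Q : ℝ) ^ (3 * s / 2) := by ring
      _ ≤ (M * δ) * (M : ℝ) := mul_le_mul h4 (by linarith) h6 (by positivity)
      _ = _ := by ring)
  have b1 : (M : ℝ) ≤ q := by exact_mod_cast (hP q hq).2.1
  have b2 : (q : ℝ) ≤ Q := by exact_mod_cast (hP q hq).2.2
  have b3 : 1 / (4 * (Q : ℝ) ^ 3) ≤ δ / 2 := by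
    rw [div_le_div_iff₀ (by positivity) (by norm_num)]
    have : (Q : ℝ) ≤ Q ^ 3 := le_self_pow₀ hQ' three_ne_zero
    nlinarith
  refine ⟨_, _, a1, by positivity, by linarith, b3, a3, q, by exact_mod_cast (by linarith : (k : ℝ) ≤ q),
    p, rfl, ?_⟩
  have : (0 : ℝ) < q := by linarith
  gcongr

theorem exists_uncovered {s : ℝ} (hs0 : 0 < s) (hs : s < 2 / 3) {t : ℕ → Set ℝ} {w : ℕ → ℝ}
    (hw0 : ∀ n, 0 < w n) (hw : Summable w) (ht : ∀ n, ∀ x ∈ t n, ∀ y ∈ t n, |x - y| ^ s ≤ w n)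
    (h : ∑' n, w n ≤ 1 / 64) : ∃ α, ¬Poissonian α ∧ ∀ n, α ∉ t n := by
  let St := {z : ℝ × ℝ // 0 < z.1 ∧ 0 < z.2 ∧ z.1 + z.2 < 1 ∧ wt t w z.1 z.2 ≤ z.2 ^ s / 32}
  have hst : ∀ (k : ℕ) (z : St), ∃ z' : St, z.1.1 ≤ z'.1.1 ∧ z'.1.1 + z'.1.2 ≤ z.1.1 + z.1.2 ∧
      z'.1.2 ≤ z.1.2 / 2 ∧
      ∃ q : ℕ, k ≤ q ∧ ∃ p : ℤ, z'.1.1 = p / q ∧ z'.1.2 ≤ 1 / (4 * q ^ 3) := by
    rintro k ⟨⟨x, δ⟩, h1, h2, h3, h4⟩
    obtain ⟨x', δ', a1, a2, a3, a4, a5, a6⟩ := step' hs0 hs hw0 hw ht h1 h2 h3 h4 k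
    exact ⟨⟨(x', δ'), h1.trans_le a1, a2, a3.trans_lt h3, a5⟩, a1, a3, a4, a6⟩
  choose F hF using hst
  have h0 : wt t w (1 / 4) (1 / 2) ≤ (1 / 2 : ℝ) ^ s / 32 := by
    have h1 : wt t w (1 / 4) (1 / 2) ≤ ∑' n, w n :=
      Summable.tsum_le_tsum (fun n => by split_ifs; exacts [le_rfl, (hw0 n).le])
        (summable_wt hw0 hw _) hw
    have h2 : (1 / 2 : ℝ) ≤ (1 / 2 : ℝ) ^ s :=
      Real.self_le_rpow_of_le_one (by norm_num) (by norm_num) (by linarith)
    linarith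
  let z : ℕ → St := fun k => Nat.rec ⟨(1 / 4, 1 / 2), by norm_num, by norm_num, by norm_num, h0⟩
    F k
  have hz : ∀ k, z (k + 1) = F k (z k) := fun _ => rfl
  obtain ⟨α, hα⟩ := IsCompact.nonempty_iInter_of_sequence_nonempty_isCompact_isClosed
    (fun k => Set.Icc (z k).1.1 ((z k).1.1 + (z k).1.2))
    (fun k => Set.Icc_subset_Icc (hF k (z k)).1 (hF k (z k)).2.1)
    (fun k => Set.nonempty_Icc.2 (by linarith [(z k).2.2.1])) isCompact_Icc fun _ => isClosed_Icc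
  rw [Set.mem_iInter] at hα
  refine ⟨α, not_poissonian fun k => ?_, fun n hn => ?_⟩
  · obtain ⟨q, hq, p, h1, h2⟩ := (hF k (z k)).2.2.2
    have := hα (k + 1)
    rw [hz, h1] at this
    exact ⟨q, hq, p, by linarith [this.1], by linarith [this.2]⟩
  · have h1 : ∀ k, (z k).1.2 ≤ (1 / 2) ^ k := by
      intro k
      induction k with
      | zero => exact (by norm_num : (1 / 2 : ℝ) ≤ (1 / 2) ^ 0)
      | succ k ih => rw [hz, pow_succ]; linarith [(hF k (z k)).2.2.1]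
    have h2 : Tendsto (fun k : ℕ => ((1 / 2 : ℝ) ^ k) ^ s / 32) atTop (𝓝 (0 ^ s / 32)) :=
      ((tendsto_pow_atTop_nhds_zero_of_lt_one (by norm_num) (by norm_num)).rpow_const
        (Or.inr hs0.le)).div_const _
    rw [Real.zero_rpow hs0.ne', zero_div] at h2
    refine absurd (ge_of_tendsto' h2 fun k => ?_) (not_le.2 (hw0 n))
    refine (le_wt hw0 hw ⟨α, hn, hα k⟩).trans ((z k).2.2.2.2.trans ?_)
    have := (z k).2.2.1
    gcongr
    exact h1 k

theorem hausdorff_ne_zero {s : ℝ} (hs0 : 0 < s) (hs : s < 2 / 3) :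
    μH[s] {α : ℝ | ¬Poissonian α} ≠ 0 := by
  intro h
  rw [Measure.hausdorffMeasure_apply] at h
  simp only [ENNReal.iSup_eq_zero] at h
  have h1 := (h 1 one_pos).trans_lt (by norm_num : (0 : ENNReal) < ENNReal.ofReal (1 / 128))
  simp only [iInf_lt_iff] at h1
  obtain ⟨t, hcov, hd, hsum⟩ := h1
  set v : ℕ → ENNReal := fun n => ⨆ _ : (t n).Nonempty, Metric.ediam (t n) ^ s with hv
  have hfin := (hsum.trans ENNReal.ofReal_lt_top).ne
  have hg : HasSum (fun n : ℕ => (1 / 128 : ℝ) / 2 / 2 ^ n) (1 / 128) := hasSum_geometric_two' _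
  obtain ⟨α, h1, h2⟩ := exists_uncovered hs0 hs (t := t)
    (w := fun n => (v n).toReal + 1 / 128 / 2 / 2 ^ n) (fun n => by positivity)
    ((ENNReal.summable_toReal hfin).add hg.summable) (fun n x hx y hy => by
      refine le_add_of_le_of_nonneg ?_ (by positivity)
      have e : v n = Metric.ediam (t n) ^ s := iSup_pos (⟨x, hx⟩ : (t n).Nonempty)
      rw [e, ← ENNReal.toReal_rpow, ← Real.dist_eq, dist_edist]
      exact Real.rpow_le_rpow ENNReal.toReal_nonneg (ENNReal.toReal_mono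
        ((hd n).trans_lt ENNReal.one_lt_top).ne (Metric.edist_le_ediam_of_mem hx hy)) hs0.le) (by
      rw [(ENNReal.summable_toReal hfin).tsum_add hg.summable, hg.tsum_eq,
        ← ENNReal.tsum_toReal_eq (ENNReal.ne_top_of_tsum_ne_top hfin)]
      linarith [ENNReal.toReal_le_of_le_ofReal (by norm_num) hsum.le])
  obtain ⟨n, hn⟩ := Set.mem_iUnion.1 (hcov h1)
  exact h2 n hn

theorem le_dimH : 2 / 3 ≤ dimH {α : ℝ | ¬Poissonian α} := by
  refine ENNReal.le_of_forall_pos_nnreal_lt fun d hd0 hd => ?_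
  refine le_dimH_of_hausdorffMeasure_ne_zero (hausdorff_ne_zero hd0 ?_)
  have : d < 2 / 3 := by
    rw [← ENNReal.coe_lt_coe]
    simpa using hd
  exact_mod_cast this

end Pool.Agent.Lib.MP_30b5ba_nt
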